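import Mathlib

set_option autoImplicit false

namespace Pool.Agent.Results.MP_ae2f9f_co.LeastTwentyOne

/-- The unit cell `[a, a+1] × [b, b+1]` is encoded by `(a, b)`. Two cells are adjacent when they
share a side. -/
def cellGraph : SimpleGraph (ℤ × ℤ) where
  Adj p q := (p.2 = q.2 ∧ (p.1 + 1 = q.1 ∨ q.1 + 1 = p.1)) ∨
    (p.1 = q.1 ∧ (p.2 + 1 = q.2 ∨ q.2 + 1 = p.2))
  symm := ⟨by
    intro p q h
    rcases h with ⟨h1, h2⟩ | ⟨h1, h2⟩
    · exact Or.inl ⟨h1.symm, h2.symm⟩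
    · exact Or.inr ⟨h1.symm, h2.symm⟩⟩
  loopless := ⟨by
    intro p h
    rcases h with ⟨_, h2⟩ | ⟨_, h2⟩ <;> omega⟩

/-- A polyomino is a finite set of cells which is (nonempty and) connected under adjacency. -/
def IsPolyomino (P : Finset (ℤ × ℤ)) : Prop :=
  (cellGraph.induce (P : Set (ℤ × ℤ))).Connected

/-- The row of `P` at height `b`, as the set of the first coordinates of its cells. -/
def row (P : Finset (ℤ × ℤ)) (b : ℤ) : Set ℤ := {a | (a, b) ∈ P}

/-- The column of `P` at abscissa `a`, as the set of the second coordinates of its cells. -/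
def col (P : Finset (ℤ × ℤ)) (a : ℤ) : Set ℤ := {b | (a, b) ∈ P}

/-- A set of integers is a single strip if it is an interval of integers. -/
def IsStrip (s : Set ℤ) : Prop := ∃ lo hi : ℤ, s = Set.Icc lo hi

/-- Property (S): no nonempty row and no nonempty column is a single strip. -/
def PropertyS (P : Finset (ℤ × ℤ)) : Prop :=
  (∀ b, (row P b).Nonempty → ¬ IsStrip (row P b)) ∧
  (∀ a, (col P a).Nonempty → ¬ IsStrip (col P a))

/-- A gap version of the row condition. -/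
def Gappy (P : Finset (ℤ × ℤ)) : Prop :=
  ∀ a b, (a, b) ∈ P → ∃ x y z, x < y ∧ y < z ∧ (x, b) ∈ P ∧ (y, b) ∉ P ∧ (z, b) ∈ P

lemma gap_of_not_strip (s : Set ℤ) (hfin : s.Finite) (hne : s.Nonempty) (hs : ¬ IsStrip s) :
    ∃ x y z, x < y ∧ y < z ∧ x ∈ s ∧ y ∉ s ∧ z ∈ s := by
  by_contra hcon
  push Not at hcon
  apply hs
  obtain ⟨lo, hlo, hlo'⟩ := Set.exists_min_image s id hfin hne
  obtain ⟨hi, hhi, hhi'⟩ := Set.exists_max_image s id hfin hne
  refine ⟨lo, hi, ?_⟩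
  ext y
  constructor
  · intro hy
    exact ⟨hlo' y hy, hhi' y hy⟩
  · rintro ⟨h1, h2⟩
    rcases eq_or_lt_of_le h1 with h | h
    · rw [← h]; exact hlo
    rcases eq_or_lt_of_le h2 with h' | h'
    · rw [h']; exact hhi
    by_contra hy
    exact hcon lo y hi h h' hlo hy hhi

lemma cut (P : Finset (ℤ × ℤ)) (hP : IsPolyomino P) (T : ℤ × ℤ → Prop)
    (h1 : ∃ p ∈ P, T p) (h2 : ∃ q ∈ P, ¬ T q) :
    ∃ p ∈ P, ∃ q ∈ P, cellGraph.Adj p q ∧ T p ∧ ¬ T q := by
  by_contra hcon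
  push Not at hcon
  obtain ⟨p, hp, hTp⟩ := h1
  obtain ⟨q, hq, hTq⟩ := h2
  obtain ⟨w⟩ := hP.preconnected ⟨p, hp⟩ ⟨q, hq⟩
  have key : ∀ (u v : (P : Set (ℤ × ℤ))) (_ : (cellGraph.induce (P : Set (ℤ × ℤ))).Walk u v),
      T u.1 → T v.1 := by
    intro u v w
    induction w with
    | nil => exact id
    | cons hadj _ ih =>
      intro hu
      exact ih (hcon _ (Subtype.prop _) _ (Subtype.prop _) hadj hu)
  exact hTq (key _ _ w hTp)

/-- The reflection in the main diagonal. -/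
def swapSet (P : Finset (ℤ × ℤ)) : Finset (ℤ × ℤ) := P.map (Equiv.prodComm ℤ ℤ).toEmbedding

lemma mem_swapSet (P : Finset (ℤ × ℤ)) (a b : ℤ) : (a, b) ∈ swapSet P ↔ (b, a) ∈ P := by
  unfold swapSet
  simp

/-- In a connected gappy set the width is at least five. -/
lemma width (P : Finset (ℤ × ℤ))
    (hcut : ∀ T : ℤ × ℤ → Prop, (∃ p ∈ P, T p) → (∃ q ∈ P, ¬ T q) →
      ∃ p ∈ P, ∃ q ∈ P, cellGraph.Adj p q ∧ T p ∧ ¬ T q)
    (hg : Gappy P) (hne : P.Nonempty) :
    ∃ lo hi : ℤ, lo + 4 ≤ hi ∧ P.image Prod.fst = Finset.Icc lo hi := by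
  have hne' : (P.image Prod.fst).Nonempty := hne.image _
  obtain ⟨lo, hlo, hlo'⟩ := Finset.exists_min_image (P.image Prod.fst) id hne'
  obtain ⟨hi, hhi, hhi'⟩ := Finset.exists_max_image (P.image Prod.fst) id hne'
  simp only [id] at hlo' hhi'
  have hmin : ∀ a b, (a, b) ∈ P → lo ≤ a := fun a b h =>
    hlo' a (Finset.mem_image.mpr ⟨(a, b), h, rfl⟩)
  have hmax : ∀ a b, (a, b) ∈ P → a ≤ hi := fun a b h =>
    hhi' a (Finset.mem_image.mpr ⟨(a, b), h, rfl⟩)
  obtain ⟨⟨lo', bl⟩, hloP, hlo_eq⟩ := Finset.mem_image.mp hlo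
  obtain ⟨⟨hi', bh⟩, hhiP, hhi_eq⟩ := Finset.mem_image.mp hhi
  simp only at hlo_eq hhi_eq
  subst hlo_eq hhi_eq
  refine ⟨lo', hi', ?_, ?_⟩
  · by_contra hlt
    push Not at hlt
    -- every row has a gap so there is a cell with abscissa at least lo' + 2
    obtain ⟨x, y, z, hxy, hyz, hx, hy, hz⟩ := hg lo' bl hloP
    have hx' := hmin _ _ hx
    obtain ⟨⟨p1, p2⟩, hp, ⟨q1, q2⟩, hq, hadj, hTp, hTq⟩ := hcut (fun c => c.1 ≤ lo' + 1)
      ⟨_, hloP, by simp⟩ ⟨_, hz, by simp only; omega⟩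
    simp only at hTp hTq
    have hadj' : (p2 = q2 ∧ (p1 + 1 = q1 ∨ q1 + 1 = p1)) ∨
      (p1 = q1 ∧ (p2 + 1 = q2 ∨ q2 + 1 = p2)) := hadj
    have hpq : p2 = q2 ∧ p1 = lo' + 1 ∧ q1 = lo' + 2 := by
      rcases hadj' with ⟨h, h' | h'⟩ | ⟨h, _⟩
      · exact ⟨h, by omega, by omega⟩
      · omega
      · omega
    obtain ⟨h2, h3, h4⟩ := hpq
    subst h2 h3 h4
    obtain ⟨x', y', z', hxy', hyz', hx', hy', hz'⟩ := hg _ _ hp
    have hx'' := hmin _ _ hx'
    have hz'' := hmax _ _ hz'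
    have : y' = lo' + 1 ∨ y' = lo' + 2 := by omega
    rcases this with h | h <;> subst h <;> contradiction
  · ext c
    rw [Finset.mem_Icc]
    constructor
    · intro hc
      exact ⟨hlo' c hc, hhi' c hc⟩
    · rintro ⟨h1, h2⟩
      rcases eq_or_lt_of_le h2 with h | h
      · rw [h]; exact hhi
      obtain ⟨⟨p1, p2⟩, hp, ⟨q1, q2⟩, hq, hadj, hTp, hTq⟩ := hcut (fun d => d.1 ≤ c)
        ⟨_, hloP, h1⟩ ⟨_, hhiP, by simp only; omega⟩
      simp only at hTp hTq
      have hadj' : (p2 = q2 ∧ (p1 + 1 = q1 ∨ q1 + 1 = p1)) ∨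
        (p1 = q1 ∧ (p2 + 1 = q2 ∨ q2 + 1 = p2)) := hadj
      have : p1 = c := by
        rcases hadj' with ⟨h, h' | h'⟩ | ⟨h, _⟩ <;> omega
      exact Finset.mem_image.mpr ⟨(p1, p2), hp, this⟩

/-- Cells without right neighbour. -/
def rightEnds (P : Finset (ℤ × ℤ)) : Finset (ℤ × ℤ) := P.filter (fun p => (p.1 + 1, p.2) ∉ P)

/-- Cells with right neighbour. -/
def rightInner (P : Finset (ℤ × ℤ)) : Finset (ℤ × ℤ) := P.filter (fun p => (p.1 + 1, p.2) ∈ P)

lemma exists_rightEnd (P : Finset (ℤ × ℤ)) (b : ℤ) : ∀ (n : ℕ) (x : ℤ), (x, b) ∈ P →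
    (x + n, b) ∉ P → ∃ e, x ≤ e ∧ e < x + n ∧ (e, b) ∈ P ∧ (e + 1, b) ∉ P := by
  intro n
  induction n with
  | zero => intro x h1 h2; simp at h2; contradiction
  | succ n ih =>
    intro x h1 h2
    by_cases h : (x + 1, b) ∈ P
    · obtain ⟨e, he1, he2, he3, he4⟩ := ih (x + 1) h (by
        have : x + 1 + (n : ℤ) = x + ((n + 1 : ℕ) : ℤ) := by push_cast; ring
        rw [this]; exact h2)
      exact ⟨e, by omega, by push_cast; omega, he3, he4⟩
    · exact ⟨x, le_refl _, by push_cast; omega, h1, h⟩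

lemma two_ends (P : Finset (ℤ × ℤ)) (hg : Gappy P) (b : ℤ) (hb : b ∈ P.image Prod.snd) :
    2 ≤ ((rightEnds P).filter (fun p => p.2 = b)).card := by
  obtain ⟨⟨a, b'⟩, hab, hb'⟩ := Finset.mem_image.mp hb
  simp only at hb'
  subst hb'
  obtain ⟨x, y, z, hxy, hyz, hx, hy, hz⟩ := hg a b' hab
  obtain ⟨e, he1, he2, he3, he4⟩ := exists_rightEnd P b' (y - x).toNat x hx (by
    have : x + ((y - x).toNat : ℤ) = y := by omega
    rw [this]; exact hy)
  -- the row is bounded, so there is a cell of the row with maximal abscissa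
  have hfin : ∃ N : ℕ, (z + N, b') ∉ P := by
    by_contra hcon
    push Not at hcon
    have hinj : Function.Injective (fun n : ℕ => (z + (n : ℤ), b')) := by
      intro m n h
      simpa using h
    have : (Set.range (fun n : ℕ => (z + (n : ℤ), b'))).Finite :=
      P.finite_toSet.subset (by rintro _ ⟨n, rfl⟩; exact hcon n)
    exact Set.infinite_range_of_injective hinj this
  obtain ⟨N, hN⟩ := hfin
  obtain ⟨f, hf1, hf2, hf3, hf4⟩ := exists_rightEnd P b' N z hz hN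
  have hne : ((e, b') : ℤ × ℤ) ≠ (f, b') := by
    intro h
    have := congrArg Prod.fst h
    simp only at this
    omega
  rw [← Finset.card_pair hne]
  apply Finset.card_le_card
  intro p hp
  rw [Finset.mem_insert, Finset.mem_singleton] at hp
  rcases hp with rfl | rfl
  · exact Finset.mem_filter.mpr ⟨Finset.mem_filter.mpr ⟨he3, he4⟩, rfl⟩
  · exact Finset.mem_filter.mpr ⟨Finset.mem_filter.mpr ⟨hf3, hf4⟩, rfl⟩

lemma ends_card (P : Finset (ℤ × ℤ)) (hg : Gappy P) :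
    2 * (P.image Prod.snd).card ≤ (rightEnds P).card := by
  rw [Finset.card_eq_sum_card_fiberwise (f := Prod.snd) (s := rightEnds P)
    (t := P.image Prod.snd) (by
      intro p hp
      exact Finset.mem_coe.mpr (Finset.mem_image_of_mem _ (Finset.mem_filter.mp hp).1))]
  rw [mul_comm, ← smul_eq_mul]
  exact Finset.card_nsmul_le_sum _ _ _ (fun b hb => two_ends P hg b hb)

lemma inner_card (P : Finset (ℤ × ℤ)) (hg : Gappy P) :
    (rightInner P).card + 2 * (P.image Prod.snd).card ≤ P.card := by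
  have h := Finset.card_filter_add_card_filter_not (s := P) (fun p => (p.1 + 1, p.2) ∈ P)
  have h2 := ends_card P hg
  unfold rightEnds at h2
  unfold rightInner
  omega

/-- The number of edges of the induced graph is at most the number of pairs of horizontally
adjacent cells plus the number of pairs of vertically adjacent cells. -/
lemma edge_card (P : Finset (ℤ × ℤ)) :
    Nat.card (cellGraph.induce (P : Set (ℤ × ℤ))).edgeSet ≤
      (rightInner P).card + (rightInner (swapSet P)).card := by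
  classical
  set G := cellGraph.induce (P : Set (ℤ × ℤ)) with hG
  let F : Finset (Sym2 (ℤ × ℤ)) :=
    (rightInner P).image (fun p => s(p, (p.1 + 1, p.2))) ∪
    (rightInner (swapSet P)).image (fun p => s((p.2, p.1), (p.2, p.1 + 1)))
  have hF : F.card ≤ (rightInner P).card + (rightInner (swapSet P)).card :=
    (Finset.card_union_le _ _).trans (add_le_add Finset.card_image_le Finset.card_image_le)
  refine le_trans ?_ hF
  have hmap : ∀ e ∈ G.edgeSet, Sym2.map Subtype.val e ∈ F := by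
    intro e
    induction e using Sym2.ind with
    | _ u v =>
      intro he
      rw [SimpleGraph.mem_edgeSet] at he
      have hadj : cellGraph.Adj u.1 v.1 := he
      rw [Sym2.map_mk]
      obtain ⟨⟨u1, u2⟩, hu⟩ := u
      obtain ⟨⟨v1, v2⟩, hv⟩ := v
      have hu' : (u1, u2) ∈ P := hu
      have hv' : (v1, v2) ∈ P := hv
      have hadj' : (u2 = v2 ∧ (u1 + 1 = v1 ∨ v1 + 1 = u1)) ∨
        (u1 = v1 ∧ (u2 + 1 = v2 ∨ v2 + 1 = u2)) := hadj
      simp only [F, Finset.mem_union, Finset.mem_image]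
      rcases hadj' with ⟨h, h' | h'⟩ | ⟨h, h' | h'⟩
      · subst h h'
        left
        exact ⟨(u1, u2), Finset.mem_filter.mpr ⟨hu', hv'⟩, rfl⟩
      · subst h h'
        left
        exact ⟨(v1, u2), Finset.mem_filter.mpr ⟨hv', hu'⟩, Sym2.eq_swap⟩
      · subst h h'
        right
        refine ⟨(u2, u1), Finset.mem_filter.mpr ⟨?_, ?_⟩, rfl⟩
        · rw [mem_swapSet]; exact hu'
        · rw [mem_swapSet]; exact hv'
      · subst h h'
        right
        refine ⟨(v2, u1), Finset.mem_filter.mpr ⟨?_, ?_⟩, Sym2.eq_swap⟩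
        · rw [mem_swapSet]; exact hv'
        · rw [mem_swapSet]; exact hu'
  have hinj : Function.Injective (fun e : G.edgeSet =>
      (⟨Sym2.map Subtype.val e.1, hmap e.1 e.2⟩ : {x // x ∈ F})) := by
    intro e f h
    have h1 : Sym2.map Subtype.val e.1 = Sym2.map Subtype.val f.1 := congrArg Subtype.val h
    exact Subtype.ext (Sym2.map.injective Subtype.val_injective h1)
  have := Nat.card_le_card_of_injective _ hinj
  simpa using this

lemma gappy_of_S (P : Finset (ℤ × ℤ))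
    (h : ∀ b, (row P b).Nonempty → ¬ IsStrip (row P b)) : Gappy P := by
  intro a b hab
  have hfin : (row P b).Finite := by
    apply (P.finite_toSet.image Prod.fst).subset
    intro a' ha'
    exact ⟨(a', b), ha', rfl⟩
  exact gap_of_not_strip (row P b) hfin ⟨a, hab⟩ (h b ⟨a, hab⟩)

lemma lower (P : Finset (ℤ × ℤ)) (hP : IsPolyomino P) (hS : PropertyS P) : 21 ≤ P.card := by
  classical
  have hne : P.Nonempty := by
    obtain ⟨⟨p, hp⟩⟩ := hP.nonempty
    exact ⟨p, hp⟩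
  have hg : Gappy P := gappy_of_S P hS.1
  have hg' : Gappy (swapSet P) := by
    apply gappy_of_S
    intro b hb
    have : row (swapSet P) b = col P b := by
      ext a
      exact mem_swapSet P a b
    rw [this] at hb ⊢
    exact hS.2 b hb
  have hcut := cut P hP
  have hcut' : ∀ T : ℤ × ℤ → Prop, (∃ p ∈ swapSet P, T p) → (∃ q ∈ swapSet P, ¬ T q) →
      ∃ p ∈ swapSet P, ∃ q ∈ swapSet P, cellGraph.Adj p q ∧ T p ∧ ¬ T q := by
    intro T ⟨p, hp, hTp⟩ ⟨q, hq, hTq⟩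
    obtain ⟨p', hp', q', hq', hadj, h1, h2⟩ := hcut (fun c => T (c.2, c.1))
      ⟨(p.2, p.1), (mem_swapSet P p.1 p.2).mp hp, hTp⟩
      ⟨(q.2, q.1), (mem_swapSet P q.1 q.2).mp hq, hTq⟩
    refine ⟨(p'.2, p'.1), (mem_swapSet P _ _).mpr hp', (q'.2, q'.1),
      (mem_swapSet P _ _).mpr hq', ?_, h1, h2⟩
    rcases hadj with h | h
    · exact Or.inr h
    · exact Or.inl h
  obtain ⟨a0, a1, ha, hA⟩ := width P hcut hg hne
  obtain ⟨b0, b1, hb, hB⟩ := width (swapSet P) hcut' hg' (by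
    obtain ⟨p, hp⟩ := hne
    exact ⟨(p.2, p.1), (mem_swapSet P _ _).mpr hp⟩)
  have hB' : P.image Prod.snd = Finset.Icc b0 b1 := by
    rw [← hB]
    ext c
    simp only [Finset.mem_image]
    constructor
    · rintro ⟨⟨p1, p2⟩, hp, rfl⟩
      exact ⟨(p2, p1), (mem_swapSet P _ _).mpr hp, rfl⟩
    · rintro ⟨⟨p1, p2⟩, hp, rfl⟩
      exact ⟨(p2, p1), (mem_swapSet P _ _).mp hp, rfl⟩
  have hA' : (swapSet P).image Prod.snd = Finset.Icc a0 a1 := by
    rw [← hA]
    ext c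
    simp only [Finset.mem_image]
    constructor
    · rintro ⟨⟨p1, p2⟩, hp, rfl⟩
      exact ⟨(p2, p1), (mem_swapSet P _ _).mp hp, rfl⟩
    · rintro ⟨⟨p1, p2⟩, hp, rfl⟩
      exact ⟨(p2, p1), (mem_swapSet P _ _).mpr hp, rfl⟩
  have hcardA : (Finset.Icc a0 a1).card = (a1 - a0 + 1).toNat := by
    rw [Int.card_Icc]; congr 1; ring
  have hcardB : (Finset.Icc b0 b1).card = (b1 - b0 + 1).toNat := by
    rw [Int.card_Icc]; congr 1; ring
  have e1 := inner_card P hg
  have e2 := inner_card (swapSet P) hg'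
  have e3 := edge_card P
  have e4 := hP.card_vert_le_card_edgeSet_add_one
  have e5 : Nat.card (P : Set (ℤ × ℤ)) = P.card := by simp
  have e6 : (swapSet P).card = P.card := Finset.card_map _
  rw [hB', hcardB] at e1
  rw [hA', hcardA, e6] at e2
  rw [e5] at e4
  by_contra hlt
  push Not at hlt
  have ha1 : a1 = a0 + 4 := by omega
  have hb1 : b1 = b0 + 4 := by omega
  subst ha1 hb1
  have h19 : 19 ≤ P.card := by omega
  -- the 5 × 5 box
  have hsub : P ⊆ (Finset.Icc a0 (a0 + 4)) ×ˢ (Finset.Icc b0 (b0 + 4)) := by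
    intro p hp
    rw [Finset.mem_product, ← hA, ← hB']
    exact ⟨Finset.mem_image_of_mem _ hp, Finset.mem_image_of_mem _ hp⟩
  have hin : ∀ a b, (a, b) ∈ P → (a0 ≤ a ∧ a ≤ a0 + 4) ∧ (b0 ≤ b ∧ b ≤ b0 + 4) := by
    intro a b h
    have := hsub h
    rw [Finset.mem_product, Finset.mem_Icc, Finset.mem_Icc] at this
    exact this
  -- a missing interior cell in every row
  have hrow : ∀ b, b0 ≤ b → b ≤ b0 + 4 → ∃ y, a0 < y ∧ y < a0 + 4 ∧ (y, b) ∉ P := by
    intro b h1 h2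
    have hb' : b ∈ P.image Prod.snd := by rw [hB']; exact Finset.mem_Icc.mpr ⟨h1, h2⟩
    obtain ⟨⟨a, b'⟩, hab, rfl⟩ := Finset.mem_image.mp hb'
    obtain ⟨x, y, z, hxy, hyz, hx, hy, hz⟩ := hg a b' hab
    exact ⟨y, by have := (hin _ _ hx).1; omega, by have := (hin _ _ hz).1; omega, hy⟩
  have hcol : ∀ a, a0 ≤ a → a ≤ a0 + 4 → ∃ y, b0 < y ∧ y < b0 + 4 ∧ (a, y) ∉ P := by
    intro a h1 h2
    have ha' : a ∈ P.image Prod.fst := by rw [hA]; exact Finset.mem_Icc.mpr ⟨h1, h2⟩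
    obtain ⟨⟨a', b⟩, hab, rfl⟩ := Finset.mem_image.mp ha'
    obtain ⟨x, y, z, hxy, hyz, hx, hy, hz⟩ := hg' b a' ((mem_swapSet P _ _).mpr hab)
    rw [mem_swapSet] at hx hz
    have hy' : (a', y) ∉ P := fun h => hy ((mem_swapSet P _ _).mpr h)
    exact ⟨y, by have := (hin _ _ hx).2; omega, by have := (hin _ _ hz).2; omega, hy'⟩
  obtain ⟨y0, hy0, hy0', hn0⟩ := hrow b0 (by omega) (by omega)
  obtain ⟨y1, hy1, hy1', hn1⟩ := hrow (b0 + 1) (by omega) (by omega)
  obtain ⟨y2, hy2, hy2', hn2⟩ := hrow (b0 + 2) (by omega) (by omega)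
  obtain ⟨y3, hy3, hy3', hn3⟩ := hrow (b0 + 3) (by omega) (by omega)
  obtain ⟨y4, hy4, hy4', hn4⟩ := hrow (b0 + 4) (by omega) (by omega)
  obtain ⟨z0, hz0, hz0', hm0⟩ := hcol a0 (by omega) (by omega)
  obtain ⟨z4, hz4, hz4', hm4⟩ := hcol (a0 + 4) (by omega) (by omega)
  let M : Finset (ℤ × ℤ) := {(y0, b0), (y1, b0 + 1), (y2, b0 + 2), (y3, b0 + 3), (y4, b0 + 4),
    (a0, z0), (a0 + 4, z4)}
  have hM : M.card = 7 := by
    simp only [M]
    rw [Finset.card_insert_of_notMem, Finset.card_insert_of_notMem, Finset.card_insert_of_notMem,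
      Finset.card_insert_of_notMem, Finset.card_insert_of_notMem, Finset.card_insert_of_notMem,
      Finset.card_singleton]
    all_goals
      simp only [Finset.mem_insert, Finset.mem_singleton, Prod.mk.injEq]
      omega
  have hdisj : Disjoint P M := by
    rw [Finset.disjoint_right]
    intro p hp
    simp only [M, Finset.mem_insert, Finset.mem_singleton] at hp
    rcases hp with rfl | rfl | rfl | rfl | rfl | rfl | rfl <;> assumption
  have hMsub : M ⊆ (Finset.Icc a0 (a0 + 4)) ×ˢ (Finset.Icc b0 (b0 + 4)) := by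
    intro p hp
    simp only [M, Finset.mem_insert, Finset.mem_singleton] at hp
    rw [Finset.mem_product, Finset.mem_Icc, Finset.mem_Icc]
    rcases hp with rfl | rfl | rfl | rfl | rfl | rfl | rfl <;> simp only <;> omega
  have hbox := Finset.card_le_card (Finset.union_subset hsub hMsub)
  rw [Finset.card_union_of_disjoint hdisj, hM, Finset.card_product, hcardA, hcardB] at hbox
  have t1 : (a0 + 4 - a0 + 1).toNat = 5 := by omega
  have t2 : (b0 + 4 - b0 + 1).toNat = 5 := by omega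
  rw [t1, t2] at hbox
  omega

/-- The cells of the example, listed so that every cell but the first is adjacent to an
earlier one. -/
def cells : Fin 21 → ℤ × ℤ :=
  ![(0, 0), (1, 0), (1, 1), (1, 2), (2, 2), (0, 2), (2, 3), (0, 3), (3, 3), (0, 4), (4, 3), (3, 4), (1, 4), (0, 5), (4, 2), (3, 5), (4, 1), (4, 5), (2, 5), (3, 1), (3, 0)]

/-- An earlier adjacent cell. -/
def par : Fin 21 → Fin 21 :=
  ![0, 0, 1, 2, 3, 3, 4, 5, 6, 7, 8, 8, 9, 9, 10, 11, 14, 15, 15, 16, 19]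

/-- The example. -/
def Q : Finset (ℤ × ℤ) := Finset.univ.image cells

instance : DecidableRel cellGraph.Adj := fun p q =>
  inferInstanceAs (Decidable ((p.2 = q.2 ∧ (p.1 + 1 = q.1 ∨ q.1 + 1 = p.1)) ∨
    (p.1 = q.1 ∧ (p.2 + 1 = q.2 ∨ q.2 + 1 = p.2))))

lemma Q_card : Q.card = 21 := by decide +kernel

lemma par_spec : ∀ i : Fin 21, i ≠ 0 → par i < i ∧ cellGraph.Adj (cells (par i)) (cells i) := by
  decide +kernel

lemma cells_mem (i : Fin 21) : cells i ∈ (Q : Set (ℤ × ℤ)) :=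
  Finset.mem_coe.mpr (Finset.mem_image_of_mem _ (Finset.mem_univ i))

lemma reach : ∀ (n : ℕ) (h : n < 21),
    (cellGraph.induce (Q : Set (ℤ × ℤ))).Reachable ⟨cells 0, cells_mem 0⟩
      ⟨cells ⟨n, h⟩, cells_mem _⟩ := by
  intro n
  induction n using Nat.strong_induction_on with
  | _ n ih =>
    intro h
    by_cases h0 : (⟨n, h⟩ : Fin 21) = 0
    · rw [h0]
    · obtain ⟨h1, h2⟩ := par_spec ⟨n, h⟩ h0
      have h3 := ih (par ⟨n, h⟩).1 h1 (par ⟨n, h⟩).2
      refine h3.trans (SimpleGraph.Adj.reachable ?_)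
      exact h2

lemma Q_conn : IsPolyomino Q := by
  unfold IsPolyomino
  rw [SimpleGraph.connected_iff_exists_forall_reachable]
  refine ⟨⟨cells 0, cells_mem 0⟩, ?_⟩
  rintro ⟨p, hp⟩
  obtain ⟨i, -, rfl⟩ := Finset.mem_image.mp (Finset.mem_coe.mp hp)
  exact reach i.1 i.2

lemma Q_row : ∀ p ∈ Q, ∃ x ∈ ({0, 1, 2, 3, 4, 5} : Finset ℤ), ∃ y ∈ ({0, 1, 2, 3, 4, 5} : Finset ℤ),
    ∃ z ∈ ({0, 1, 2, 3, 4, 5} : Finset ℤ), x < y ∧ y < z ∧ (x, p.2) ∈ Q ∧ (y, p.2) ∉ Q ∧
      (z, p.2) ∈ Q := by decide +kernel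

lemma Q_col : ∀ p ∈ Q, ∃ x ∈ ({0, 1, 2, 3, 4, 5} : Finset ℤ), ∃ y ∈ ({0, 1, 2, 3, 4, 5} : Finset ℤ),
    ∃ z ∈ ({0, 1, 2, 3, 4, 5} : Finset ℤ), x < y ∧ y < z ∧ (p.1, x) ∈ Q ∧ (p.1, y) ∉ Q ∧
      (p.1, z) ∈ Q := by decide +kernel

lemma Q_S : PropertyS Q := by
  constructor
  · rintro b ⟨a, ha⟩ ⟨lo, hi, h⟩
    obtain ⟨x, -, y, -, z, -, hxy, hyz, hx, hy, hz⟩ := Q_row (a, b) ha
    have hx' : x ∈ row Q b := hx
    have hz' : z ∈ row Q b := hz
    rw [h] at hx' hz'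
    apply hy
    have : y ∈ row Q b := by
      rw [h]
      exact ⟨by have := hx'.1; omega, by have := hz'.2; omega⟩
    exact this
  · rintro a ⟨b, hb⟩ ⟨lo, hi, h⟩
    obtain ⟨x, -, y, -, z, -, hxy, hyz, hx, hy, hz⟩ := Q_col (a, b) hb
    have hx' : x ∈ col Q a := hx
    have hz' : z ∈ col Q a := hz
    rw [h] at hx' hz'
    apply hy
    have : y ∈ col Q a := by
      rw [h]
      exact ⟨by have := hx'.1; omega, by have := hz'.2; omega⟩
    exact this

/-- The least number of cells of a polyomino none of whose nonempty rows and columns is a single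
strip is 21. -/
theorem result :
    IsLeast {n : ℕ | ∃ P : Finset (ℤ × ℤ), P.card = n ∧ IsPolyomino P ∧ PropertyS P} 21 := by
  refine ⟨⟨Q, Q_card, Q_conn, Q_S⟩, ?_⟩
  rintro n ⟨P, rfl, hP, hS⟩
  exact lower P hP hS

end Pool.Agent.Results.MP_ae2f9f_co.LeastTwentyOne
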